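import Pool.Agent.P.MP_67bca4_pr.AH.All
import Pool.Agent.P.MP_67bca4_pr.Cut
import Pool.Agent.P.MP_67bca4_pr.Transfer

/-!
The anchored flow is not superconcentrated in high dimension: a uniform lower bound on the
variance for all side lengths and all heights.
-/

namespace Pool.Agent.Results.MP_67bca4_pr.AllHeights

open MeasureTheory ProbabilityTheory Pool.Agent.P.MP_67bca4_pr

theorem result (ρ : ℝ) : ∃ D₀ : ℕ, ∀ D ≥ D₀, ∀ a b : ℝ, 0 < a → a < b → b ≤ ρ * a →
    ∀ p : unitInterval, 0 < p → p < 1 → ∃ c : ℝ, 0 < c ∧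
      ∀ n H : ℕ, 1 ≤ n → 1 ≤ H → c * (n : ℝ) ^ D ≤ Var[tau D n H a b; law (D + 1) p] := by
  obtain ⟨D₀, h⟩ := fin_var_all (ρ := max ρ 1) (le_max_right _ _)
  refine ⟨D₀, fun D hD a b ha hab hb p hp0 hp1 => ?_⟩
  obtain ⟨c, hc, h⟩ := h D hD a b ha hab
    (hb.trans (mul_le_mul_of_nonneg_right (le_max_left _ _) ha.le)) p hp0 hp1
  refine ⟨c, hc, fun n H hn hH => ?_⟩
  obtain ⟨N₀, h⟩ := h n H hn hH
  have : NeZero (N₀ + H + 1) := ⟨by omega⟩
  have h2 := h (N₀ + H + 1) (by omega)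
  have h3 : tau D n H a b = fun ω => (fun η : Ix D n (N₀ + H + 1) → Bool =>
      GEc n (dis a b η) (Slab n H)) fun i => @decide (emb i ∈ ω) (Classical.propDecidable _) := by
    funext ω
    exact tau_eq hH (by omega) ha.le (ha.trans hab).le ω
  have h4 := var_transfer (lattice (D + 1)).edgeSet p emb emb_inj (fun i => edg_mem _ _ _)
    (fun η : Ix D n (N₀ + H + 1) → Bool => GEc n (dis a b η) (Slab n H))
  rw [h3, law]
  exact h2.trans h4.ge

end Pool.Agent.Results.MP_67bca4_pr.AllHeights
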